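import Pool.Agent.H38.PWS.Stmts

/-! # Row PBD: lower bound for a product -/

set_option autoImplicit false

namespace Pool.PWS

open Finset Filter Topology

theorem PBD : PBDStmt := by
  intro m δ η hδ hη
  have h1 : Tendsto (fun n : ℕ => (n : ℝ) ^ (-δ)) atTop (𝓝 0) :=
    (tendsto_rpow_neg_atTop hδ).comp tendsto_natCast_atTop_atTop
  have hη1 : Real.exp (-η) < 1 := by
    rw [Real.exp_lt_one_iff]
    linarith only [hη]
  have h2 : ∀ᶠ n : ℕ in atTop, (n : ℝ) ^ (-δ) < 1 - Real.exp (-η) :=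
    h1.eventually (gt_mem_nhds (by linarith only [hη1]))
  obtain ⟨B, hB⟩ := eventually_atTop.1 h2
  set a : ℝ := 1 - (2 : ℝ) ^ (-δ) with ha
  have h3 : (2 : ℝ) ^ (-δ) < 1 := Real.rpow_lt_one_of_one_lt_of_neg (by norm_num)
    (by linarith only [hδ])
  have h4 : (0 : ℝ) < (2 : ℝ) ^ (-δ) := Real.rpow_pos_of_pos (by norm_num) _
  have ha0 : 0 < a := by linarith only [ha, h3]
  have ha1 : a ≤ 1 := by linarith only [ha, h4]
  refine ⟨a ^ (m * B), pow_pos ha0 _, ?_⟩
  intro E hE
  have h5 : ∀ e ∈ E, Real.exp (-η) * (if e.2 < B then a else 1) ≤ 1 - (e.2 : ℝ) ^ (-δ) := by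
    intro e he
    split_ifs with h6
    · have h7 : (e.2 : ℝ) ^ (-δ) ≤ (2 : ℝ) ^ (-δ) := by
        apply Real.rpow_le_rpow_of_nonpos (by norm_num)
        · exact_mod_cast (hE e he).2
        · linarith only [hδ]
      have h8 : Real.exp (-η) * a ≤ a := mul_le_of_le_one_left ha0.le hη1.le
      linarith only [h7, h8, ha]
    · have h7 := hB e.2 (not_lt.1 h6)
      linarith only [h7]
  have h6 : ∏ e ∈ E, (Real.exp (-η) * (if e.2 < B then a else 1)) ≤
      ∏ e ∈ E, (1 - (e.2 : ℝ) ^ (-δ)) := by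
    apply prod_le_prod _ h5
    intro e _
    apply mul_nonneg (Real.exp_pos _).le
    split_ifs
    · exact ha0.le
    · exact zero_le_one
  refine le_trans ?_ h6
  rw [prod_mul_distrib, prod_const, ← Real.exp_nat_mul, prod_ite, prod_const, prod_const_one,
    mul_one]
  have h7 : (E.card : ℝ) * (-η) = -(η * E.card) := by ring
  rw [h7, mul_comm]
  apply mul_le_mul_of_nonneg_left _ (Real.exp_pos _).le
  apply pow_le_pow_of_le_one ha0.le ha1
  have h8 : (E.filter fun e => e.2 < B) ⊆ range m ×ˢ range B := by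
    intro e he
    obtain ⟨h9, h10⟩ := mem_filter.1 he
    exact mem_product.2 ⟨mem_range.2 (hE e h9).1, mem_range.2 h10⟩
  refine (card_le_card h8).trans ?_
  rw [card_product, card_range, card_range]

end Pool.PWS
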